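import Mathlib

set_option autoImplicit false

namespace Pool.Agent.Results.MP_89b4a2_co.Denominators

open Finset

section field

variable {F : Type*} [Field F]

/-- The `q`-shifted factorial `(x;q)_n = ∏_{j<n} (1 - x q^j)`. -/
def poch {R : Type*} [CommRing R] (q x : R) (n : ℕ) : R := ∏ j ∈ range n, (1 - x * q ^ j)

/-- The basic hypergeometric series `₂φ₁(a,b;c;q,z)` as a formal power series in `z`. -/
noncomputable def phi (q a b c : F) : PowerSeries F :=
  PowerSeries.mk fun n => poch q a n * poch q b n / (poch q q n * poch q c n)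

/-- The quotient `₂φ₁(aq,b;cq;q,z) / ₂φ₁(a,b;c;q,z)`. -/
noncomputable def ratio (q a b c : F) : PowerSeries F :=
  phi q (a * q) b (c * q) * (phi q a b c)⁻¹

lemma poch_zero {R : Type*} [CommRing R] (q x : R) : poch q x 0 = 1 := by simp [poch]

lemma poch_succ {R : Type*} [CommRing R] (q x : R) (n : ℕ) :
    poch q x (n + 1) = poch q x n * (1 - x * q ^ n) := by
  simp [poch, prod_range_succ]

lemma poch_succ' {R : Type*} [CommRing R] (q x : R) (n : ℕ) :
    poch q x (n + 1) = (1 - x) * poch q (x * q) n := by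
  unfold poch
  rw [prod_range_succ', mul_comm]
  congr 1
  · simp
  · refine prod_congr rfl fun j _ => ?_
    rw [pow_succ]; ring

lemma poch_ne {q x : F} (hx : ∀ i : ℕ, 1 - x * q ^ i ≠ 0) (n : ℕ) : poch q x n ≠ 0 :=
  prod_ne_zero_iff.mpr fun j _ => hx j

lemma shift_ne {q x : F} (hx : ∀ i : ℕ, 1 - x * q ^ i ≠ 0) (i : ℕ) : 1 - (x * q) * q ^ i ≠ 0 := by
  have := hx (i + 1)
  rw [pow_succ] at this
  intro h
  apply this
  rw [← h]; ring

lemma phi_symm (q a b c : F) : phi q a b c = phi q b a c := by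
  ext n
  simp only [phi, PowerSeries.coeff_mk]
  rw [mul_comm (poch q a n)]

lemma phi_const (q a b c : F) : PowerSeries.constantCoeff (phi q a b c) = 1 := by
  rw [← PowerSeries.coeff_zero_eq_constantCoeff_apply]
  simp [phi, poch_zero]

lemma contiguous {q a b c : F} (hq : ∀ i : ℕ, 1 - q * q ^ i ≠ 0) (hc : ∀ i : ℕ, 1 - c * q ^ i ≠ 0) :
    phi q (a * q) b (c * q) = phi q a b c +
      PowerSeries.C ((1 - b) * (a - c) / ((1 - c) * (1 - c * q))) *
        (PowerSeries.X * phi q (a * q) (b * q) (c * q * q)) := by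
  ext n
  rw [map_add, PowerSeries.coeff_C_mul]
  rcases n with _ | n
  · rw [PowerSeries.coeff_zero_eq_constantCoeff_apply, PowerSeries.coeff_zero_eq_constantCoeff_apply,
      PowerSeries.coeff_zero_X_mul, phi_const, phi_const]
    simp
  · rw [PowerSeries.coeff_succ_X_mul]
    simp only [phi, PowerSeries.coeff_mk]
    have hcq := shift_ne hc
    have hcqq := shift_ne hcq
    have n1 := poch_ne hq n
    have n2 := poch_ne hcqq n
    have n3 := hq n
    have n4 : 1 - c ≠ 0 := by simpa using hc 0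
    have n5 : 1 - c * q ≠ 0 := by simpa using hc 1
    have n6 := poch_ne hc (n + 1)
    have n7 := hc (n + 1)
    have e1 : poch q (a * q) (n + 1) = poch q (a * q) n * (1 - a * q ^ (n + 1)) := by
      rw [poch_succ, pow_succ]; ring
    have e2 : poch q a (n + 1) = (1 - a) * poch q (a * q) n := poch_succ' q a n
    have e3 : poch q b (n + 1) = (1 - b) * poch q (b * q) n := poch_succ' q b n
    have e4 : poch q q (n + 1) = poch q q n * (1 - q * q ^ n) := poch_succ q q n
    have e5 : poch q (c * q) (n + 1) = (1 - c * q) * poch q (c * q * q) n := poch_succ' q (c * q) n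
    have e6 : poch q c (n + 1) * (1 - c * q ^ (n + 1)) =
        (1 - c) * ((1 - c * q) * poch q (c * q * q) n) := by
      rw [← poch_succ, poch_succ', poch_succ']
    have e7 : poch q c (n + 1) = (1 - c) * ((1 - c * q) * poch q (c * q * q) n) /
        (1 - c * q ^ (n + 1)) := by
      rw [← e6]; field_simp
    rw [e1, e2, e3, e4, e5, e7]
    field_simp
    ring

lemma ratio_rec {q a b c : F} (hq : ∀ i : ℕ, 1 - q * q ^ i ≠ 0) (hc : ∀ i : ℕ, 1 - c * q ^ i ≠ 0) :
    ratio q a b c = 1 + PowerSeries.C ((1 - b) * (a - c) / ((1 - c) * (1 - c * q))) *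
        (PowerSeries.X * (ratio q b (a * q) (c * q) * ratio q a b c)) := by
  have h1 : phi q a b c * (phi q a b c)⁻¹ = 1 :=
    PowerSeries.mul_inv_cancel _ (by rw [phi_const]; exact one_ne_zero)
  have h2 : phi q (a * q) b (c * q) * (phi q (a * q) b (c * q))⁻¹ = 1 :=
    PowerSeries.mul_inv_cancel _ (by rw [phi_const]; exact one_ne_zero)
  have h3 : ratio q b (a * q) (c * q) * ratio q a b c =
      phi q (a * q) (b * q) (c * q * q) * (phi q a b c)⁻¹ := by
    unfold ratio
    rw [phi_symm q (b * q) (a * q), phi_symm q b (a * q)]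
    calc phi q (a * q) (b * q) (c * q * q) * (phi q (a * q) b (c * q))⁻¹ *
          (phi q (a * q) b (c * q) * (phi q a b c)⁻¹) =
        (phi q (a * q) b (c * q) * (phi q (a * q) b (c * q))⁻¹) *
          (phi q (a * q) (b * q) (c * q * q) * (phi q a b c)⁻¹) := by ring
      _ = _ := by rw [h2, one_mul]
  rw [h3]
  conv_lhs => rw [ratio, contiguous hq hc, add_mul, h1]
  ring

lemma ratio_coeff_zero {q a b c : F} (hq : ∀ i : ℕ, 1 - q * q ^ i ≠ 0)
    (hc : ∀ i : ℕ, 1 - c * q ^ i ≠ 0) : PowerSeries.coeff 0 (ratio q a b c) = 1 := by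
  rw [ratio_rec hq hc, map_add, PowerSeries.coeff_C_mul, PowerSeries.coeff_zero_X_mul]
  simp

lemma ratio_coeff_succ {q a b c : F} (hq : ∀ i : ℕ, 1 - q * q ^ i ≠ 0)
    (hc : ∀ i : ℕ, 1 - c * q ^ i ≠ 0) (n : ℕ) :
    PowerSeries.coeff (n + 1) (ratio q a b c) = ((1 - b) * (a - c) / ((1 - c) * (1 - c * q))) *
      ∑ p ∈ antidiagonal n, PowerSeries.coeff p.1 (ratio q b (a * q) (c * q)) *
        PowerSeries.coeff p.2 (ratio q a b c) := by
  conv_lhs => rw [ratio_rec hq hc]
  rw [map_add, PowerSeries.coeff_C_mul, PowerSeries.coeff_succ_X_mul, PowerSeries.coeff_mul]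
  simp [PowerSeries.coeff_one]

/-- the linear recursion coming from the definition of the quotient -/
lemma ratio_lin (q a b c : F) (n : ℕ) :
    PowerSeries.coeff n (ratio q a b c) =
      poch q (a * q) n * poch q b n / (poch q q n * poch q (c * q) n) -
      ∑ i ∈ range n, poch q a (i + 1) * poch q b (i + 1) / (poch q q (i + 1) * poch q c (i + 1)) *
        PowerSeries.coeff (n - 1 - i) (ratio q a b c) := by
  have h1 : phi q a b c * (phi q a b c)⁻¹ = 1 :=
    PowerSeries.mul_inv_cancel _ (by rw [phi_const]; exact one_ne_zero)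
  have h2 : phi q a b c * ratio q a b c = phi q (a * q) b (c * q) := by
    unfold ratio
    rw [mul_left_comm, h1, mul_one]
  have h3 := congrArg (PowerSeries.coeff n) h2
  rw [PowerSeries.coeff_mul, Finset.Nat.sum_antidiagonal_eq_sum_range_succ_mk,
    sum_range_succ'] at h3
  simp only [phi, PowerSeries.coeff_mk, poch_zero, Nat.sub_zero, mul_one, div_one, one_mul] at h3
  have h4 : ∀ i ∈ range n, n - (i + 1) = n - 1 - i := fun i _ => by omega
  have h5 : ∑ i ∈ range n, poch q a (i + 1) * poch q b (i + 1) / (poch q q (i + 1) * poch q c (i + 1)) *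
        PowerSeries.coeff (n - (i + 1)) (ratio q a b c) =
      ∑ i ∈ range n, poch q a (i + 1) * poch q b (i + 1) / (poch q q (i + 1) * poch q c (i + 1)) *
        PowerSeries.coeff (n - 1 - i) (ratio q a b c) :=
    sum_congr rfl fun i hi => by rw [h4 i hi]
  rw [← h5]
  rw [← h3]
  ring

end field

/-! ### The universal situation -/

/-- `ℤ[a,b,c,q]`: the variables are `c = X 0`, `a = X 1`, `b = X 2`, `q = X 3`. -/
abbrev R0 := MvPolynomial (Fin 4) ℤ

/-- `ℚ(a,b,c,q)`. -/
abbrev K := FractionRing R0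

noncomputable def vc : R0 := MvPolynomial.X 0
noncomputable def va : R0 := MvPolynomial.X 1
noncomputable def vb : R0 := MvPolynomial.X 2
noncomputable def vq : R0 := MvPolynomial.X 3

/-- inclusion of the polynomial ring -/
noncomputable abbrev io : R0 →+* K := algebraMap R0 K

/-- The coefficients `γ'_n`. -/
noncomputable def gam (n : ℕ) : K :=
  PowerSeries.coeff n (ratio (io vq) (io va) (io vb) (io vc))

/-- `D_n = ∏_{k=0}^n (1 - c q^k)^{⌊(n+1)/(k+1)⌋}`. -/
noncomputable def D (n : ℕ) : R0 := ∏ k ∈ range (n + 1), (1 - vc * vq ^ k) ^ ((n + 1) / (k + 1))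

/-- exponents of `D_n / (1-c)` -/
def ex (k n : ℕ) : ℕ := if k = 0 then n else (n + 1) / (k + 1)

noncomputable def D' (n : ℕ) : R0 := ∏ k ∈ range (n + 1), (1 - vc * vq ^ k) ^ (ex k n)

lemma D_eq (n : ℕ) : D n = (1 - vc) * D' n := by
  unfold D D'
  rw [prod_range_succ', prod_range_succ']
  have e1 : (n + 1) / (0 + 1) = n + 1 := by simp
  have e2 : ex 0 n = n := by simp [ex]
  have e3 : ∀ k, ex (k + 1) n = (n + 1) / (k + 1 + 1) := fun k => by simp [ex]
  simp only [e1, e2, e3, pow_zero, mul_one]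
  ring

/-- setting `c = 0` -/
noncomputable def cc : R0 →+* MvPolynomial (Fin 3) ℤ :=
  (Polynomial.constantCoeff).comp (MvPolynomial.finSuccEquiv ℤ 3).toRingEquiv.toRingHom

/-- polynomials not involving `c` -/
noncomputable def lf : MvPolynomial (Fin 3) ℤ →+* R0 :=
  (MvPolynomial.finSuccEquiv ℤ 3).symm.toRingEquiv.toRingHom.comp Polynomial.C

lemma cc_vc : cc vc = 0 := by
  simp [cc, vc, MvPolynomial.finSuccEquiv_X_zero]

lemma lf_X2 : lf (MvPolynomial.X 2) = vq := by
  have h : MvPolynomial.finSuccEquiv ℤ 3 vq = Polynomial.C (MvPolynomial.X 2) := by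
    have := MvPolynomial.finSuccEquiv_X_succ (R := ℤ) (n := 3) (j := 2)
    exact this
  have : lf (MvPolynomial.X 2) = (MvPolynomial.finSuccEquiv ℤ 3).symm
      (Polynomial.C (MvPolynomial.X 2)) := rfl
  rw [this, ← h, AlgEquiv.symm_apply_apply]

lemma lf_inj : Function.Injective lf := by
  intro x y h
  have h' : (MvPolynomial.finSuccEquiv ℤ 3).symm (Polynomial.C x) =
      (MvPolynomial.finSuccEquiv ℤ 3).symm (Polynomial.C y) := h
  exact Polynomial.C_injective ((MvPolynomial.finSuccEquiv ℤ 3).symm.injective h')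

/-- the divisibility principle -/
lemma dvd_of_dvd_mul {A : Type*} [CommRing A] (v : A) (U B : Polynomial A) (hU : U.coeff 0 = 1)
    (h : Polynomial.C v ∣ U * B) : Polynomial.C v ∣ B := by
  rw [Polynomial.C_dvd_iff_dvd_coeff] at h ⊢
  intro n
  induction n using Nat.strong_induction_on with
  | _ n ih =>
    have h1 := h n
    rw [Polynomial.coeff_mul, Finset.Nat.sum_antidiagonal_eq_sum_range_succ_mk,
      sum_range_succ'] at h1
    simp only [hU, one_mul, Nat.sub_zero] at h1
    have h2 : v ∣ ∑ i ∈ range n, U.coeff (i + 1) * B.coeff (n - (i + 1)) := by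
      apply dvd_sum
      intro i hi
      rw [mem_range] at hi
      exact Dvd.dvd.mul_left (ih _ (by omega)) _
    exact (dvd_add_right h2).mp h1

lemma dvd_of_dvd_mul' (v : MvPolynomial (Fin 3) ℤ) (U B : R0) (hU : cc U = 1)
    (h : lf v ∣ U * B) : lf v ∣ B := by
  obtain ⟨W, hW⟩ := h
  have e : ∀ x, MvPolynomial.finSuccEquiv ℤ 3 (lf x) = Polynomial.C x := by
    intro x
    exact AlgEquiv.apply_symm_apply _ _
  have h1 := congrArg (MvPolynomial.finSuccEquiv ℤ 3) hW
  rw [map_mul, map_mul, e] at h1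
  have h2 := dvd_of_dvd_mul v (MvPolynomial.finSuccEquiv ℤ 3 U) (MvPolynomial.finSuccEquiv ℤ 3 B)
    hU ⟨_, h1⟩
  obtain ⟨T, hT⟩ := h2
  refine ⟨(MvPolynomial.finSuccEquiv ℤ 3).symm T, ?_⟩
  apply (MvPolynomial.finSuccEquiv ℤ 3).injective
  rw [map_mul, e, AlgEquiv.apply_symm_apply, hT]

/-- denominators with constant term `1` in `c` suffice -/
def InS (x : K) : Prop := ∃ U : R0, cc U = 1 ∧ ∃ A : R0, io U * x = io A

lemma InS.mul {x y : K} (hx : InS x) (hy : InS y) : InS (x * y) := by
  obtain ⟨U, hU, A, hA⟩ := hx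
  obtain ⟨V, hV, B, hB⟩ := hy
  refine ⟨U * V, by rw [map_mul, hU, hV, one_mul], A * B, ?_⟩
  rw [map_mul, map_mul, ← hA, ← hB]; ring

lemma InS.add {x y : K} (hx : InS x) (hy : InS y) : InS (x + y) := by
  obtain ⟨U, hU, A, hA⟩ := hx
  obtain ⟨V, hV, B, hB⟩ := hy
  refine ⟨U * V, by rw [map_mul, hU, hV, one_mul], V * A + U * B, ?_⟩
  rw [map_mul, map_add, map_mul, map_mul, ← hA, ← hB]; ring

lemma InS.of (x : R0) : InS (io x) := ⟨1, map_one _, x, by rw [map_one, one_mul]⟩

lemma InS.sum {ι : Type*} (s : Finset ι) (f : ι → K) (h : ∀ i ∈ s, InS (f i)) :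
    InS (∑ i ∈ s, f i) := by
  classical
  induction s using Finset.induction_on with
  | empty => simpa using InS.of 0
  | insert a s ha ih =>
    rw [sum_insert ha]
    exact (h a (mem_insert_self _ _)).add (ih fun i hi => h i (mem_insert_of_mem hi))

lemma io_inj : Function.Injective io := IsFractionRing.injective R0 K

lemma ne_of_cc {U : R0} (hU : cc U = 1) : io U ≠ 0 := by
  intro h
  have : U = 0 := io_inj (by rw [h, map_zero])
  rw [this, map_zero] at hU
  exact zero_ne_one hU

lemma InS.inv {U : R0} (hU : cc U = 1) : InS (io U)⁻¹ :=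
  ⟨U, hU, 1, by rw [map_one]; exact mul_inv_cancel₀ (ne_of_cc hU)⟩

lemma cc_p (k : ℕ) : cc (1 - vc * vq ^ k) = 1 := by
  rw [map_sub, map_mul, cc_vc, map_one]; ring

lemma p_ne (m i : ℕ) : 1 - io vc * io vq ^ m * io vq ^ i ≠ 0 := by
  have h : 1 - io vc * io vq ^ m * io vq ^ i = io (1 - vc * vq ^ (m + i)) := by
    rw [map_sub, map_mul, map_pow, map_one, pow_add]; ring
  rw [h]; exact ne_of_cc (cc_p _)

lemma q_ne (i : ℕ) : (1 - vq * vq ^ i : R0) ≠ 0 := by
  intro h
  have h2 := congrArg (MvPolynomial.eval (fun _ => (0:ℤ))) h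
  simp [vq] at h2

lemma q_ne' (i : ℕ) : 1 - io vq * io vq ^ i ≠ 0 := by
  have h : 1 - io vq * io vq ^ i = io (1 - vq * vq ^ i) := by
    rw [map_sub, map_mul, map_pow, map_one]
  rw [h]
  intro h0
  exact q_ne i (io_inj (by rw [h0, map_zero]))

lemma claimA (n : ℕ) : ∀ (a' b' : R0) (m : ℕ),
    InS (PowerSeries.coeff n (ratio (io vq) (io a') (io b') (io vc * io vq ^ m))) := by
  induction n using Nat.strong_induction_on with
  | _ n ih =>
    intro a' b' m
    rcases n with _ | n
    · rw [ratio_coeff_zero q_ne' (p_ne m)]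
      simpa using InS.of 1
    · rw [ratio_coeff_succ q_ne' (p_ne m)]
      apply InS.mul
      · have e : (1 - io b') * (io a' - io vc * io vq ^ m) /
            ((1 - io vc * io vq ^ m) * (1 - io vc * io vq ^ m * io vq)) =
            io ((1 - b') * (a' - vc * vq ^ m)) * ((io (1 - vc * vq ^ m))⁻¹ *
              (io (1 - vc * vq ^ (m + 1)))⁻¹) := by
          rw [div_eq_mul_inv, mul_inv]
          simp only [map_mul, map_sub, map_pow, map_one, pow_succ, mul_assoc]
        rw [e]
        exact (InS.of _).mul ((InS.inv (cc_p _)).mul (InS.inv (cc_p _)))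
      · apply InS.sum
        intro p hp
        rw [Finset.HasAntidiagonal.mem_antidiagonal] at hp
        apply InS.mul
        · have := ih p.1 (by omega) b' (a' * vq) (m + 1)
          rw [map_mul, pow_succ, ← mul_assoc] at this
          exact this
        · exact ih p.2 (by omega) a' b' m

/-- the pole orders are controlled, up to denominators not involving `c` -/
def GoodB (n : ℕ) (x : K) : Prop :=
  ∃ V : MvPolynomial (Fin 3) ℤ, V ≠ 0 ∧ ∃ B : R0, io (lf V) * io (D' n) * x = io B

lemma GoodB.add {n : ℕ} {x y : K} (hx : GoodB n x) (hy : GoodB n y) : GoodB n (x + y) := by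
  obtain ⟨U, hU, A, hA⟩ := hx
  obtain ⟨V, hV, B, hB⟩ := hy
  refine ⟨U * V, mul_ne_zero hU hV, lf V * A + lf U * B, ?_⟩
  rw [map_mul, map_add, map_mul, map_mul, map_mul, ← hA, ← hB]; ring

lemma GoodB.neg {n : ℕ} {x : K} (hx : GoodB n x) : GoodB n (-x) := by
  obtain ⟨U, hU, A, hA⟩ := hx
  exact ⟨U, hU, -A, by rw [map_neg, ← hA]; ring⟩

lemma GoodB.zero (n : ℕ) : GoodB n 0 := ⟨1, one_ne_zero, 0, by simp⟩

lemma GoodB.sum {ι : Type*} {n : ℕ} (s : Finset ι) (f : ι → K) (h : ∀ i ∈ s, GoodB n (f i)) :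
    GoodB n (∑ i ∈ s, f i) := by
  classical
  induction s using Finset.induction_on with
  | empty => simpa using GoodB.zero n
  | insert a s ha ih =>
    rw [sum_insert ha]
    exact (h a (mem_insert_self _ _)).add (ih fun i hi => h i (mem_insert_of_mem hi))

lemma io_poch (x : R0) (n : ℕ) : io (poch vq x n) = poch (io vq) (io x) n := by
  unfold poch
  rw [map_prod]
  refine prod_congr rfl fun j _ => ?_
  rw [map_sub, map_mul, map_pow, map_one]

lemma lf_poch (n : ℕ) : lf (poch (MvPolynomial.X 2) (MvPolynomial.X 2) n) = poch vq vq n := by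
  unfold poch
  rw [map_prod]
  refine prod_congr rfl fun j _ => ?_
  rw [map_sub, map_mul, map_pow, map_one, lf_X2]

lemma pochq_ne (n : ℕ) : poch vq vq n ≠ 0 := prod_ne_zero_iff.mpr fun j _ => q_ne j

lemma pochX_ne (n : ℕ) :
    poch (MvPolynomial.X 2 : MvPolynomial (Fin 3) ℤ) (MvPolynomial.X 2) n ≠ 0 := by
  intro h
  have := congrArg lf h
  rw [lf_poch, map_zero] at this
  exact pochq_ne n this

lemma ex_eq_zero {k n : ℕ} (h : n < k) : ex k n = 0 := by
  unfold ex
  rw [if_neg (by omega)]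
  exact Nat.div_eq_of_lt (by omega)

lemma D'_extend (m n : ℕ) (h : m ≤ n) :
    D' m = ∏ k ∈ range (n + 1), (1 - vc * vq ^ k) ^ (ex k m) := by
  unfold D'
  apply prod_subset (range_mono (by omega))
  intro k _ hk
  rw [mem_range] at hk
  rw [ex_eq_zero (by omega), pow_zero]

lemma poch_extend (i n : ℕ) (h : i ≤ n + 1) :
    poch vq vc i = ∏ k ∈ range (n + 1), (1 - vc * vq ^ k) ^ (if k < i then 1 else 0) := by
  unfold poch
  rw [← prod_subset (range_mono h)]
  · refine prod_congr rfl fun k hk => ?_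
    rw [if_pos (mem_range.mp hk), pow_one]
  · intro k _ hk
    rw [mem_range] at hk
    rw [if_neg hk, pow_zero]

lemma dvd1 (i n : ℕ) (hi : i < n) : poch vq vc (i + 1) * D' (n - 1 - i) ∣ D' n := by
  rw [poch_extend (i + 1) n (by omega), D'_extend (n - 1 - i) n (by omega), ← prod_mul_distrib]
  unfold D'
  apply prod_dvd_prod_of_dvd
  intro k _
  rw [← pow_add]
  apply pow_dvd_pow
  unfold ex
  by_cases hk : k = 0
  · subst hk
    simp only [if_true]
    rw [if_pos (by omega)]
    omega
  · rw [if_neg hk, if_neg hk]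
    by_cases hki : k < i + 1
    · rw [if_pos hki]
      have e : 1 + (n - 1 - i + 1) / (k + 1) = (n - 1 - i + 1 + (k + 1)) / (k + 1) := by
        rw [Nat.add_div_right _ (by omega)]; omega
      rw [e]
      exact Nat.div_le_div_right (by omega)
    · rw [if_neg hki, zero_add]
      exact Nat.div_le_div_right (by omega)

lemma dvd2 (n : ℕ) : poch vq (vc * vq) n ∣ D' n := by
  have e : poch vq (vc * vq) n = ∏ k ∈ range n, (1 - vc * vq ^ (k + 1)) := by
    unfold poch
    refine prod_congr rfl fun k _ => ?_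
    rw [pow_succ]; ring
  rw [e]
  unfold D'
  rw [prod_range_succ']
  apply Dvd.dvd.mul_right
  apply prod_dvd_prod_of_dvd
  intro k hk
  rw [mem_range] at hk
  apply dvd_pow_self
  unfold ex
  rw [if_neg (by omega)]
  have : 1 ≤ (n + 1) / (k + 1 + 1) := by
    rw [Nat.le_div_iff_mul_le (by omega)]; omega
  omega

lemma claimB (n : ℕ) : GoodB n (gam n) := by
  induction n using Nat.strong_induction_on with
  | _ n ih =>
    unfold gam
    rw [ratio_lin, sub_eq_add_neg]
    apply GoodB.add
    · obtain ⟨T, hT⟩ := dvd2 n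
      refine ⟨poch (MvPolynomial.X 2) (MvPolynomial.X 2) n, pochX_ne n,
        T * poch vq (va * vq) n * poch vq vb n, ?_⟩
      rw [lf_poch, hT]
      simp only [map_mul, io_poch]
      have n1 := poch_ne q_ne' n
      have n2 : poch (io vq) (io vc * io vq) n ≠ 0 := by
        apply poch_ne
        intro i
        have := p_ne 1 i
        rwa [pow_one] at this
      field_simp
    · apply GoodB.neg
      apply GoodB.sum
      intro i hi
      rw [mem_range] at hi
      obtain ⟨V, hV, B, hB⟩ := ih (n - 1 - i) (by omega)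
      obtain ⟨T, hT⟩ := dvd1 i n hi
      refine ⟨V * poch (MvPolynomial.X 2) (MvPolynomial.X 2) (i + 1),
        mul_ne_zero hV (pochX_ne _), T * poch vq va (i + 1) * poch vq vb (i + 1) * B, ?_⟩
      rw [map_mul lf, lf_poch, hT]
      have hB' : io (lf V) * io (D' (n - 1 - i)) *
        PowerSeries.coeff (n - 1 - i) (ratio (io vq) (io va) (io vb) (io vc)) = io B := hB
      rw [map_mul io, map_mul io, map_mul io, map_mul io, map_mul io, map_mul io, ← hB']
      simp only [io_poch]
      have n1 := poch_ne q_ne' (i + 1)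
      have n2 : poch (io vq) (io vc) (i + 1) ≠ 0 := by
        apply poch_ne
        intro j
        have := p_ne 0 j
        rwa [pow_zero, mul_one] at this
      field_simp

/-- **Q1 holds**: `D_n γ'_n = (1-c) P'_n` with `P'_n ∈ ℤ[a,b,c,q]`, for every `n`. -/
theorem result : ∀ n : ℕ, ∃ P : MvPolynomial (Fin 4) ℤ,
    io (D n) * gam n = (1 - io vc) * io P := by
  intro n
  have hA : InS (gam n) := by
    have := claimA n va vb 0
    rwa [pow_zero, mul_one] at this
  obtain ⟨U, hU, A, hA⟩ := hA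
  obtain ⟨V, hV, B, hB⟩ := claimB n
  have h1 : io (U * B) = io (lf V * (D' n * A)) := by
    rw [map_mul, map_mul, map_mul, ← hA, ← hB]; ring
  have h2 : lf V ∣ U * B := ⟨_, io_inj h1⟩
  obtain ⟨P, hP⟩ := dvd_of_dvd_mul' V U B hU h2
  refine ⟨P, ?_⟩
  have hVne : io (lf V) ≠ 0 := by
    intro h
    apply hV
    apply lf_inj
    apply io_inj
    rw [h, map_zero, map_zero]
  have h3 : io (D' n) * gam n = io P := by
    apply mul_left_cancel₀ hVne
    rw [← mul_assoc, hB, hP, map_mul]
  rw [D_eq, map_mul, map_sub, map_one, mul_assoc, h3]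

end Pool.Agent.Results.MP_89b4a2_co.Denominators
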